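import Pool.Agent.Q306.FK.T3X.Fin
import Pool.Agent.Q306.FK.T2X.Fin
import Pool.Agent.Q306.FK.BipLow

set_option autoImplicit false
set_option maxRecDepth 100000
open Finset

namespace Pool.Agent.Results.MP_a4d830_co.EighteenEdgeSextuples
open Pool.Agent.Q306.FK

/-- the number of sets of six vertices which span exactly 18 edges -/
def sextuples18 {n : ℕ} (H : Finset (Finset (Fin n))) : ℕ :=
  (((univ : Finset (Fin n)).powersetCard 6).filter fun S => (H.filter fun e => e ⊆ S).card = 18).card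

section
variable {n : ℕ} {H : Finset (Finset (Fin n))}

theorem split_card (hH : ThreeGraph H) (S : Finset (Fin n)) (hS : S.card = 6) :
    (H.filter fun e => e ⊆ S).card + ((S.powersetCard 3).filter fun e => e ∉ H).card = 20 := by
  have e1 : H.filter (fun e => e ⊆ S) = (S.powersetCard 3).filter fun e => e ∈ H := by
    ext e
    rw [mem_filter, mem_filter, mem_powersetCard]
    constructor
    · rintro ⟨h1, h2⟩
      exact ⟨⟨h2, hH e h1⟩, h1⟩
    · rintro ⟨⟨h1, -⟩, h3⟩
      exact ⟨h3, h1⟩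
  rw [e1, card_filter_add_card_filter_not, card_powersetCard, hS]
  decide

theorem missing (hF : K53Free H) (S : Finset (Fin n)) (hS : S.card = 6) {v : Fin n} (hv : v ∈ S) :
    ∃ t ∈ (S.powersetCard 3).filter fun e => e ∉ H, v ∉ t := by
  obtain ⟨t, h1, h2, h3⟩ := hF (S.erase v) (by rw [card_erase_of_mem hv, hS])
  refine ⟨t, mem_filter.mpr ⟨mem_powersetCard.mpr ⟨h1.trans (erase_subset _ _), h2⟩, h3⟩, ?_⟩
  intro h
  exact notMem_erase v S (h1 h)

theorem two_missing (hF : K53Free H) (S : Finset (Fin n)) (hS : S.card = 6) :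
    ∃ t1 ∈ (S.powersetCard 3).filter (fun e => e ∉ H),
      ∃ t2 ∈ (S.powersetCard 3).filter (fun e => e ∉ H), t1 ≠ t2 := by
  have h0 : S.Nonempty := by
    rw [← card_pos, hS]; norm_num
  obtain ⟨v, hv⟩ := h0
  obtain ⟨t1, h1, -⟩ := missing hF S hS hv
  have h2 := mem_powersetCard.mp (mem_filter.mp h1).1
  have h3 : t1.Nonempty := by
    rw [← card_pos, h2.2]; norm_num
  obtain ⟨w, hw⟩ := h3
  obtain ⟨t2, h4, h5⟩ := missing hF S hS (h2.1 hw)
  refine ⟨t1, h1, t2, h4, ?_⟩
  rintro rfl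
  exact h5 hw

theorem le18 (hH : ThreeGraph H) (hF : K53Free H) (S : Finset (Fin n)) (hS : S.card = 6) :
    (H.filter fun e => e ⊆ S).card ≤ 18 := by
  obtain ⟨t1, h1, t2, h2, h3⟩ := two_missing hF S hS
  have h4 : 1 < ((S.powersetCard 3).filter fun e => e ∉ H).card :=
    one_lt_card.mpr ⟨t1, h1, t2, h2, h3⟩
  have h5 := split_card hH S hS
  omega

theorem type3 (hH : ThreeGraph H) (hF : K53Free H) (S : Finset (Fin n)) (hS : S.card = 6)
    (h18 : (H.filter fun e => e ⊆ S).card = 18) :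
    ∃ P ∈ S.powersetCard 3, ∀ e ∈ S.powersetCard 3, (e ∈ H ↔ ¬ e ⊆ P ∧ ¬ e ⊆ S \ P) := by
  have h5 := split_card hH S hS
  have h6 : ((S.powersetCard 3).filter fun e => e ∉ H).card = 2 := by omega
  obtain ⟨t1, t2, h12, hM⟩ := card_eq_two.mp h6
  have m1 : t1 ∈ (S.powersetCard 3).filter fun e => e ∉ H := by rw [hM]; simp
  have m2 : t2 ∈ (S.powersetCard 3).filter fun e => e ∉ H := by rw [hM]; simp
  have p1 := mem_powersetCard.mp (mem_filter.mp m1).1
  have p2 := mem_powersetCard.mp (mem_filter.mp m2).1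
  have hdis : Disjoint t1 t2 := by
    rw [disjoint_left]
    intro v hv1 hv2
    obtain ⟨t, ht, hvt⟩ := missing hF S hS (p1.1 hv1)
    rw [hM, mem_insert, mem_singleton] at ht
    rcases ht with rfl | rfl
    · exact hvt hv1
    · exact hvt hv2
  have hcomp : S \ t1 = t2 := by
    symm
    refine eq_of_subset_of_card_le ?_ ?_
    · intro v hv
      exact mem_sdiff.mpr ⟨p2.1 hv, fun h => (disjoint_left.mp hdis) h hv⟩
    · rw [card_sdiff_of_subset p1.1, hS, p1.2, p2.2]
  refine ⟨t1, mem_powersetCard.mpr p1, ?_⟩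
  intro e he
  rw [hcomp]
  have he' := mem_powersetCard.mp he
  have k1 : e ⊆ t1 ↔ e = t1 := by
    constructor
    · intro h
      exact eq_of_subset_of_card_le h (by rw [p1.2, he'.2])
    · rintro rfl
      exact Subset.refl _
  have k2 : e ⊆ t2 ↔ e = t2 := by
    constructor
    · intro h
      exact eq_of_subset_of_card_le h (by rw [p2.2, he'.2])
    · rintro rfl
      exact Subset.refl _
  rw [k1, k2]
  have k3 : e ∉ H ↔ e = t1 ∨ e = t2 := by
    have : e ∈ (S.powersetCard 3).filter (fun e => e ∉ H) ↔ e = t1 ∨ e = t2 := by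
      rw [hM, mem_insert, mem_singleton]
    rw [← this, mem_filter]
    exact ⟨fun h => ⟨he, h⟩, fun h => h.2⟩
  tauto

theorem sextuples18_le (hH : ThreeGraph H) (hF : K53Free H) : sextuples18 H ≤ bip6 3 H := by
  unfold sextuples18 bip6
  refine card_le_card fun S hS => ?_
  rw [mem_filter, mem_powersetCard] at hS
  rw [mem_filter, mem_powersetCard]
  exact ⟨hS.1, type3 hH hF S hS.1.2 hS.2⟩

theorem main (hH : ThreeGraph H) (hF : K53Free H) :
    ∃ A : Finset (Fin n),
      6 * (2304 * sextuples18 H) + n ^ 3 * (symmDiff H (twoClass A)).card ≤ 6 * n ^ 6 ∧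
      7 * (1536 * bip6 2 H) + n ^ 3 * (symmDiff H (twoClass A)).card ≤ 7 * n ^ 6 := by
  obtain ⟨A, hA⟩ := stab hH hF
  have hA' : (n : ℤ) ^ 3 * ((symmDiff H (twoClass A)).card : ℤ) ≤
      2 * ∑ x : Fin 6 → Fin n, ((YB (tn H) x : ℕ) : ℤ) := by exact_mod_cast hA
  have h3 := T3X.base hH hF
  have h2 := T2X.base hH hF
  have h4 : (sextuples18 H : ℤ) ≤ (bip6 3 H : ℤ) := by exact_mod_cast sextuples18_le hH hF
  set Y : ℤ := ∑ x : Fin 6 → Fin n, ((YB (tn H) x : ℕ) : ℤ)
  have hY : (0 : ℤ) ≤ Y := by positivity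
  refine ⟨A, ?_, ?_⟩
  · have : 6 * (2304 * (sextuples18 H : ℤ)) +
        (n : ℤ) ^ 3 * (symmDiff H (twoClass A)).card ≤ 6 * (n : ℤ) ^ 6 := by
      linarith
    exact_mod_cast this
  · have : 7 * (1536 * (bip6 2 H : ℤ)) +
        (n : ℤ) ^ 3 * (symmDiff H (twoClass A)).card ≤ 7 * (n : ℤ) ^ 6 := by
      linarith
    exact_mod_cast this

theorem twoClass_le (A : Finset (Fin n)) : 8 * (twoClass A).card ≤ n ^ 3 := by
  have hAn : A.card ≤ n := by
    calc _ ≤ (univ : Finset (Fin n)).card := card_le_univ A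
      _ = n := by rw [card_univ, Fintype.card_fin]
  have hAc : Aᶜ.card = n - A.card := by rw [card_compl, Fintype.card_fin]
  -- the edges with one vertex in `A`, and those with two vertices in `A`
  have h1 : twoClass A ⊆ fam A 1 2 ∪ fam A 2 1 := by
    intro e he
    unfold twoClass at he
    rw [mem_filter] at he
    obtain ⟨-, h3, h4, h5⟩ := he
    have hsplit : (e ∩ A).card + (e ∩ Aᶜ).card = 3 := by
      rw [← h3, ← card_union_of_disjoint]
      · congr 1
        ext v
        simp only [mem_union, mem_inter, mem_compl]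
        tauto
      · rw [disjoint_left]
        intro v hv hv'
        exact mem_compl.mp (mem_inter.mp hv').2 (mem_inter.mp hv).2
    have hu : e ∩ A ∪ e ∩ Aᶜ = e := by
      ext v
      simp only [mem_union, mem_inter, mem_compl]
      tauto
    have n1 : (e ∩ Aᶜ).card ≠ 0 := by
      intro h0
      apply h4
      intro v hv
      by_contra hvA
      have : v ∈ e ∩ Aᶜ := mem_inter.mpr ⟨hv, mem_compl.mpr hvA⟩
      rw [card_eq_zero] at h0
      rw [h0] at this
      exact notMem_empty v this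
    have n2 : (e ∩ A).card ≠ 0 := by
      intro h0
      apply h5
      intro v hv
      rw [mem_compl]
      intro hvA
      have : v ∈ e ∩ A := mem_inter.mpr ⟨hv, hvA⟩
      rw [card_eq_zero] at h0
      rw [h0] at this
      exact notMem_empty v this
    rw [mem_union]
    have hcase : ((e ∩ A).card = 1 ∧ (e ∩ Aᶜ).card = 2) ∨ ((e ∩ A).card = 2 ∧ (e ∩ Aᶜ).card = 1) := by
      omega
    rcases hcase with ⟨a1, a2⟩ | ⟨a1, a2⟩
    · left
      unfold fam
      rw [mem_image]
      exact ⟨(e ∩ A, e ∩ Aᶜ), mem_product.mpr ⟨mem_powersetCard.mpr ⟨inter_subset_right, a1⟩,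
        mem_powersetCard.mpr ⟨inter_subset_right, a2⟩⟩, hu⟩
    · right
      unfold fam
      rw [mem_image]
      exact ⟨(e ∩ A, e ∩ Aᶜ), mem_product.mpr ⟨mem_powersetCard.mpr ⟨inter_subset_right, a1⟩,
        mem_powersetCard.mpr ⟨inter_subset_right, a2⟩⟩, hu⟩
  have h2 := (card_le_card h1).trans (card_union_le _ _)
  rw [fam_card, fam_card, Nat.choose_one_right, Nat.choose_one_right] at h2
  obtain ⟨b, hb⟩ : ∃ b, n = A.card + b := ⟨n - A.card, by omega⟩
  have hb' : n - A.card = b := by omega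
  rw [hb'] at h2
  set a := A.card
  have c1 : 2 * b.choose 2 ≤ b * b := by
    rw [Nat.choose_two_right]
    have h3 := Nat.mul_div_le (b * (b - 1)) 2
    have h4 : b * (b - 1) ≤ b * b := Nat.mul_le_mul_left _ (Nat.sub_le _ _)
    omega
  have c2 : 2 * a.choose 2 ≤ a * a := by
    rw [Nat.choose_two_right]
    have h3 := Nat.mul_div_le (a * (a - 1)) 2
    have h4 : a * (a - 1) ≤ a * a := Nat.mul_le_mul_left _ (Nat.sub_le _ _)
    omega
  have d1 : 2 * (a * b.choose 2) ≤ a * (b * b) := by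
    calc 2 * (a * b.choose 2) = a * (2 * b.choose 2) := by ring
      _ ≤ _ := Nat.mul_le_mul_left _ c1
  have d2 : 2 * (a.choose 2 * b) ≤ (a * a) * b := by
    calc 2 * (a.choose 2 * b) = (2 * a.choose 2) * b := by ring
      _ ≤ _ := Nat.mul_le_mul_right _ c2
  have d3 : 4 * (a * (b * b) + (a * a) * b) ≤ (a + b) ^ 3 := by
    zify
    nlinarith [mul_nonneg (add_nonneg (Int.natCast_nonneg a) (Int.natCast_nonneg b))
      (sq_nonneg ((a : ℤ) - b))]
  have d4 : n ^ 3 = (a + b) ^ 3 := congrArg (fun x => x ^ 3) hb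
  omega

theorem edges (hH : ThreeGraph H) (hF : K53Free H) :
    8 * n ^ 3 * H.card + 48 * (2304 * sextuples18 H) ≤ 49 * n ^ 6 ∧
    8 * n ^ 3 * H.card + 56 * (1536 * bip6 2 H) ≤ 57 * n ^ 6 := by
  obtain ⟨A, h1, h2⟩ := main hH hF
  have h3 : H.card ≤ (twoClass A).card + (symmDiff H (twoClass A)).card := by
    have : H ⊆ twoClass A ∪ symmDiff H (twoClass A) := by
      intro e he
      rw [mem_union, mem_symmDiff]
      tauto
    exact (card_le_card this).trans (card_union_le _ _)
  have h4 := twoClass_le A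
  have h5 : 8 * n ^ 3 * H.card ≤ n ^ 6 + 8 * (n ^ 3 * (symmDiff H (twoClass A)).card) := by
    calc 8 * n ^ 3 * H.card ≤ 8 * n ^ 3 * ((twoClass A).card + (symmDiff H (twoClass A)).card) :=
          Nat.mul_le_mul_left _ h3
      _ = n ^ 3 * (8 * (twoClass A).card) + 8 * (n ^ 3 * (symmDiff H (twoClass A)).card) := by ring
      _ ≤ n ^ 3 * n ^ 3 + 8 * (n ^ 3 * (symmDiff H (twoClass A)).card) :=
          Nat.add_le_add_right (Nat.mul_le_mul_left _ h4) _
      _ = _ := by ring
  constructor <;> omega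

end

/-- the complete bipartite 3-graphs -/
theorem example_ {n : ℕ} (A : Finset (Fin n)) :
    A.card.choose 3 * (n - A.card).choose 3 ≤ sextuples18 (twoClass A) := by
  rw [← fam_card A 3 3]
  unfold sextuples18
  refine card_le_card fun S hS => ?_
  have h1 := fam_sub (by norm_num) hS
  rw [mem_filter, mem_powersetCard] at h1
  rw [mem_filter, mem_powersetCard]
  refine ⟨h1.1, ?_⟩
  obtain ⟨P, hP, he⟩ := h1.2
  have hP' := mem_powersetCard.mp hP
  have h2 := split_card (twoClass_three A) S h1.1.2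
  have h3 : ((S.powersetCard 3).filter fun e => e ∉ twoClass A) ⊆ {P, S \ P} := by
    intro e h4
    rw [mem_filter] at h4
    have h5 := mem_powersetCard.mp h4.1
    have h6 := he e h4.1
    have hQ : (S \ P).card = 3 := by rw [card_sdiff_of_subset hP'.1, h1.1.2, hP'.2]
    rw [mem_insert, mem_singleton]
    have h7 : e ⊆ P ∨ e ⊆ S \ P := by
      by_contra hcon
      push Not at hcon
      exact h4.2 (h6.mpr hcon)
    rcases h7 with h7 | h7
    · exact Or.inl (eq_of_subset_of_card_le h7 (by rw [hP'.2, h5.2]))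
    · exact Or.inr (eq_of_subset_of_card_le h7 (by rw [hQ, h5.2]))
  have h4 := (card_le_card h3).trans card_le_two
  have h5 := le18 (twoClass_three A) (twoClass_free A) S h1.1.2
  omega

/-- **Main theorem.** Six-sets with 18 edges, and six-sets of bipartite type `(2, 4)`, in 3-graphs
without a complete 3-graph on five vertices. -/
theorem result :
    (∀ (n : ℕ) (H : Finset (Finset (Fin n))), ThreeGraph H → K53Free H →
      (∀ S : Finset (Fin n), S.card = 6 → (H.filter fun e => e ⊆ S).card ≤ 18) ∧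
      (∃ A : Finset (Fin n),
        6 * (2304 * sextuples18 H) + n ^ 3 * (symmDiff H (twoClass A)).card ≤ 6 * n ^ 6 ∧
        7 * (1536 * bip6 2 H) + n ^ 3 * (symmDiff H (twoClass A)).card ≤ 7 * n ^ 6) ∧
      8 * n ^ 3 * H.card + 48 * (2304 * sextuples18 H) ≤ 49 * n ^ 6 ∧
      8 * n ^ 3 * H.card + 56 * (1536 * bip6 2 H) ≤ 57 * n ^ 6) ∧
    (∀ (n : ℕ) (A : Finset (Fin n)), ThreeGraph (twoClass A) ∧ K53Free (twoClass A) ∧
      A.card.choose 3 * (n - A.card).choose 3 ≤ sextuples18 (twoClass A) ∧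
      A.card.choose 2 * (n - A.card).choose 4 + (n - A.card).choose 2 * A.card.choose 4 ≤
        bip6 2 (twoClass A)) :=
  ⟨fun _ _ hH hF => ⟨le18 hH hF, main hH hF, edges hH hF⟩,
   fun _ A => ⟨twoClass_three A, twoClass_free A, example_ A, (bip6_twoClass A _ _ rfl rfl).2.1⟩⟩

end Pool.Agent.Results.MP_a4d830_co.EighteenEdgeSextuples
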