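import Pool.Agent.Q306.FK.T3L.Fin
import Pool.Agent.Q306.FK.T2L.Fin
import Pool.Agent.Q306.FK.T1L.Fin
import Pool.Agent.Q306.FK.BipLow

set_option autoImplicit false
set_option maxRecDepth 100000
open Finset

namespace Pool.Agent.Results.MP_a4d830_co.FewerBipartiteSixSets
open Pool.Agent.Q306.FK

theorem main {n : ℕ} {H : Finset (Finset (Fin n))} (hH : ThreeGraph H) (hF : K53Free H) :
    ∃ A : Finset (Fin n),
      51 * (192 * n ^ 3 * H.card + 2304 * bip6 3 H) + n ^ 3 * (symmDiff H (twoClass A)).card ≤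
        51 * (25 * n ^ 6) ∧
      52 * (192 * n ^ 3 * H.card + 1536 * bip6 2 H) + n ^ 3 * (symmDiff H (twoClass A)).card ≤
        52 * (25 * n ^ 6) ∧
      52 * (96 * n ^ 3 * H.card + 3840 * bip6 1 H) + n ^ 3 * (symmDiff H (twoClass A)).card ≤
        52 * (13 * n ^ 6) := by
  obtain ⟨A, hA⟩ := stab hH hF
  have hA' : (n : ℤ) ^ 3 * ((symmDiff H (twoClass A)).card : ℤ) ≤
      2 * ∑ x : Fin 6 → Fin n, ((YB (tn H) x : ℕ) : ℤ) := by exact_mod_cast hA
  have h3 := T3L.base hH hF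
  have h2 := T2L.base hH hF
  have h1 := T1L.base hH hF
  set Y : ℤ := ∑ x : Fin 6 → Fin n, ((YB (tn H) x : ℕ) : ℤ)
  have hY : (0 : ℤ) ≤ Y := by positivity
  refine ⟨A, ?_, ?_, ?_⟩
  · have : 51 * (192 * (n : ℤ) ^ 3 * H.card + 2304 * bip6 3 H) +
        (n : ℤ) ^ 3 * (symmDiff H (twoClass A)).card ≤ 51 * (25 * (n : ℤ) ^ 6) := by
      linarith
    exact_mod_cast this
  · have : 52 * (192 * (n : ℤ) ^ 3 * H.card + 1536 * bip6 2 H) +
        (n : ℤ) ^ 3 * (symmDiff H (twoClass A)).card ≤ 52 * (25 * (n : ℤ) ^ 6) := by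
      linarith
    exact_mod_cast this
  · have : 52 * (96 * (n : ℤ) ^ 3 * H.card + 3840 * bip6 1 H) +
        (n : ℤ) ^ 3 * (symmDiff H (twoClass A)).card ≤ 52 * (13 * (n : ℤ) ^ 6) := by
      linarith
    exact_mod_cast this

theorem bound {n : ℕ} {H : Finset (Finset (Fin n))} (hH : ThreeGraph H) (hF : K53Free H)
    (h : n ^ 6 ≤ 2304 * bip6 3 H ∨ n ^ 6 ≤ 1536 * bip6 2 H ∨ n ^ 6 ≤ 3840 * bip6 1 H) :
    8 * H.card ≤ n ^ 3 := by
  obtain ⟨A, h3, h2, h1⟩ := main hH hF
  rcases Nat.eq_zero_or_pos n with rfl | hn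
  · have h0 : H = ∅ := by
      rw [eq_empty_iff_forall_notMem]
      intro e he
      have h4 := hH e he
      have h5 : e.card ≤ 0 := by
        calc _ ≤ (univ : Finset (Fin 0)).card := card_le_univ e
          _ = 0 := by simp
      omega
    simp [h0]
  · have hp : 0 < n ^ 3 := by positivity
    have key : n ^ 3 * (8 * H.card) ≤ n ^ 3 * n ^ 3 := by
      have e6 : n ^ 6 = n ^ 3 * n ^ 3 := by ring
      rw [e6] at h3 h2 h1 h
      have a1 : 192 * n ^ 3 * H.card = 24 * (n ^ 3 * (8 * H.card)) := by ring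
      have a2 : 96 * n ^ 3 * H.card = 12 * (n ^ 3 * (8 * H.card)) := by ring
      rw [a1] at h3 h2
      rw [a2] at h1
      rcases h with h | h | h
      · omega
      · omega
      · omega
    exact Nat.le_of_mul_le_mul_left key hp

/-- the balanced complete bipartite 3-graph -/
theorem example_ (m : ℕ) : ∃ A : Finset (Fin (2 * m)),
    ThreeGraph (twoClass A) ∧ K53Free (twoClass A) ∧
    (2 * m).choose 3 ≤ (twoClass A).card + 2 * m.choose 3 ∧
    m.choose 3 * m.choose 3 ≤ bip6 3 (twoClass A) ∧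
    2 * (m.choose 2 * m.choose 4) ≤ bip6 2 (twoClass A) ∧
    2 * (m * m.choose 5) ≤ bip6 1 (twoClass A) := by
  obtain ⟨A, -, hA⟩ := exists_subset_card_eq (s := (univ : Finset (Fin (2 * m)))) (n := m)
    (by rw [card_univ, Fintype.card_fin]; omega)
  have hb : 2 * m - A.card = m := by omega
  have hAc : Aᶜ.card = m := by rw [card_compl, Fintype.card_fin]; omega
  have h1 : (univ : Finset (Fin (2 * m))).powersetCard 3 ⊆
      twoClass A ∪ (A.powersetCard 3 ∪ Aᶜ.powersetCard 3) := by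
    intro e he
    have he3 := (mem_powersetCard.mp he).2
    by_cases e1 : e ⊆ A
    · exact mem_union_right _ (mem_union_left _ (mem_powersetCard.mpr ⟨e1, he3⟩))
    · by_cases e2 : e ⊆ Aᶜ
      · exact mem_union_right _ (mem_union_right _ (mem_powersetCard.mpr ⟨e2, he3⟩))
      · exact mem_union_left _ (mem_filter.mpr ⟨mem_univ _, he3, e1, e2⟩)
  have h2 := (card_le_card h1).trans ((card_union_le _ _).trans
    (Nat.add_le_add_left (card_union_le _ _) _))
  rw [card_powersetCard, card_powersetCard, card_powersetCard, card_univ, Fintype.card_fin, hA,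
    hAc] at h2
  obtain ⟨k3, k2, k1⟩ := bip6_twoClass A m m hA hb
  rw [Nat.choose_one_right] at k1
  exact ⟨A, twoClass_three A, twoClass_free A, by omega, k3, by omega, by omega⟩

/-- **Main theorem.** A 3-graph without a complete 3-graph on five vertices which has more edges
than the balanced complete bipartite 3-graph has fewer six-sets of each of the three bipartite
types. -/
theorem result :
    (∀ (n : ℕ) (H : Finset (Finset (Fin n))), ThreeGraph H → K53Free H →
      ∃ A : Finset (Fin n),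
        51 * (192 * n ^ 3 * H.card + 2304 * bip6 3 H) + n ^ 3 * (symmDiff H (twoClass A)).card ≤
          51 * (25 * n ^ 6) ∧
        52 * (192 * n ^ 3 * H.card + 1536 * bip6 2 H) + n ^ 3 * (symmDiff H (twoClass A)).card ≤
          52 * (25 * n ^ 6) ∧
        52 * (96 * n ^ 3 * H.card + 3840 * bip6 1 H) + n ^ 3 * (symmDiff H (twoClass A)).card ≤
          52 * (13 * n ^ 6)) ∧
    (∀ (n : ℕ) (H : Finset (Finset (Fin n))), ThreeGraph H → K53Free H →
      (n ^ 6 ≤ 2304 * bip6 3 H ∨ n ^ 6 ≤ 1536 * bip6 2 H ∨ n ^ 6 ≤ 3840 * bip6 1 H) →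
      8 * H.card ≤ n ^ 3) ∧
    (∀ m : ℕ, ∃ A : Finset (Fin (2 * m)), ThreeGraph (twoClass A) ∧ K53Free (twoClass A) ∧
      (2 * m).choose 3 ≤ (twoClass A).card + 2 * m.choose 3 ∧
      m.choose 3 * m.choose 3 ≤ bip6 3 (twoClass A) ∧
      2 * (m.choose 2 * m.choose 4) ≤ bip6 2 (twoClass A) ∧
      2 * (m * m.choose 5) ≤ bip6 1 (twoClass A)) :=
  ⟨fun _ _ hH hF => main hH hF, fun _ _ hH hF h => bound hH hF h, example_⟩

end Pool.Agent.Results.MP_a4d830_co.FewerBipartiteSixSets
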