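import Pool.Agent.Q263.K5P.EC

/-!
# Edges and squares of codegrees of `K_5^3`-free 3-graphs

For a 3-graph `H` on `n` vertices let `d(x,y)` be the codegree and consider the linear combination
`a n (6 |H|) + b ∑ d(x,y)^2`, the sum over all ordered pairs of vertices. For `b = 0`, `a = 1` its
maximum over the `K_5^3`-free 3-graphs is the Turán problem for `K_5^3`: the conjecture
`π(K_5^3) = 3/4` says that it is `(3/4 + o(1)) n^4`. Here the maximum is determined asymptotically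
for all real `b ≥ 0` and all real `a ≤ (2/5) b`: it is `max(0, (3/4) a + (5/8) b) n^4 + o(n^4)`, with
an upper bound valid for every `n`; the first value is attained by the empty 3-graph and the second
one by Turán's construction (all triples meeting both parts of a balanced bipartition). The two
extreme cases are the inequalities

* `6 ∑ d(x,y)^2 ≤ 5 n (6 |H|)`: the mean value of the codegrees of the three pairs in a random edge
  is at most `5n/6`, with equality asymptotically for Turán's construction, and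
* `16 n (6 |H|) + 40 ∑ d(x,y)^2 ≤ 37 n^4`.

They are proved by two exact sums of squares (flag certificates on six vertices) which are checked by
the kernel.
-/

set_option autoImplicit false
open Finset Filter Topology
open scoped Classical

namespace Pool.Agent.Results.MP_a4d830_co.FiveCliqueEdgesCodegrees

open Pool.Agent.Q263.K5P

/-- No `m` vertices of the 3-graph `H` span all their triples. -/
def CliqueFree {n : ℕ} (m : ℕ) (H : Finset (Finset (Fin n))) : Prop :=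
  ∀ S : Finset (Fin n), S.card = m → ∃ s ⊆ S, s.card = 3 ∧ s ∉ H

/-- The number of vertices `z` such that `{x, y, z}` is an edge of `H`: the codegree of the pair
`x`, `y`.  It is `0` for `x = y`, if the edges of `H` have three elements. -/
noncomputable def codegree {n : ℕ} (H : Finset (Finset (Fin n))) (x y : Fin n) : ℕ :=
  (univ.filter fun z => {x, y, z} ∈ H).card

/-- `a n (6 |H|) + b ∑ d(x,y)^2`, the sum over the ordered pairs of vertices. -/
noncomputable def objective {n : ℕ} (a b : ℝ) (H : Finset (Finset (Fin n))) : ℝ :=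
  a * (n * (6 * H.card)) + b * ∑ x : Fin n, ∑ y : Fin n, (codegree H x y : ℝ) ^ 2

/-- The largest value of `objective a b H` over the `K_m^3`-free 3-graphs `H` on `n` vertices. -/
noncomputable def exValue (a b : ℝ) (m n : ℕ) : ℝ :=
  sSup {s : ℝ | ∃ H : Finset (Finset (Fin n)),
    (∀ e ∈ H, e.card = 3) ∧ CliqueFree m H ∧ objective a b H = s}

theorem bounds {n : ℕ} (H : Finset (Finset (Fin n))) (h3 : ∀ e ∈ H, e.card = 3)
    (hF : CliqueFree 5 H) :
    6 * ∑ x : Fin n, ∑ y : Fin n, (codegree H x y : ℝ) ^ 2 ≤ 5 * (n * (6 * (H.card : ℝ))) ∧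
    16 * (n * (6 * (H.card : ℝ))) + 40 * ∑ x : Fin n, ∑ y : Fin n, (codegree H x y : ℝ) ^ 2 ≤
      37 * (n : ℝ) ^ 4 := by
  have h1 := EC.ineqD H h3 hF
  have h2 := EC.ineqE H h3 hF
  rw [EC.sum_cg_real H h3] at h1 h2
  exact ⟨h1, h2⟩

theorem upper {a b : ℝ} (hb : 0 ≤ b) (hab : a ≤ 2 / 5 * b) (n : ℕ) (H : Finset (Finset (Fin n)))
    (h3 : ∀ e ∈ H, e.card = 3) (hF : CliqueFree 5 H) :
    objective a b H ≤ max 0 (3 / 4 * a + 5 / 8 * b) * (n : ℝ) ^ 4 := by
  obtain ⟨h1, h2⟩ := bounds H h3 hF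
  have hX : (0 : ℝ) ≤ n * (6 * (H.card : ℝ)) := by positivity
  have hn : (0 : ℝ) ≤ (n : ℝ) ^ 4 := by positivity
  unfold objective
  set X : ℝ := n * (6 * (H.card : ℝ)) with hXd
  set Y : ℝ := ∑ x : Fin n, ∑ y : Fin n, (codegree H x y : ℝ) ^ 2 with hYd
  rcases le_total (a * 6 + b * 5) 0 with hc | hc
  · have h5 : 0 ≤ max 0 (3 / 4 * a + 5 / 8 * b) * (n : ℝ) ^ 4 := mul_nonneg (le_max_left _ _) hn
    have h6 := mul_le_mul_of_nonneg_left h1 hb
    have h7 := mul_nonneg (neg_nonneg.2 hc) hX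
    nlinarith
  · have hα : 0 ≤ (6 * a + 5 * b) / 74 := div_nonneg (by linarith) (by norm_num)
    have hβ : 0 ≤ (8 * b - 20 * a) / 37 := div_nonneg (by linarith) (by norm_num)
    have h5 := mul_le_mul_of_nonneg_left h2 hα
    have h6 := mul_le_mul_of_nonneg_left h1 hβ
    have h7 : (3 / 4 * a + 5 / 8 * b) * (n : ℝ) ^ 4 ≤ max 0 (3 / 4 * a + 5 / 8 * b) * (n : ℝ) ^ 4 :=
      mul_le_mul_of_nonneg_right (le_max_right _ _) hn
    refine le_trans ?_ h7
    linarith

theorem lower (a b : ℝ) (hb : 0 ≤ b) (ε : ℝ) (hε : 0 < ε) : ∃ N : ℕ, ∀ n : ℕ, N ≤ n →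
    (3 / 4 * a + 5 / 8 * b - ε) * (n : ℝ) ^ 4 ≤ objective a b (TH200.LP.tur 2 n) := by
  have hδ : 0 < ε / (5 / 2 * |a| + b + 1) := by
    have := abs_nonneg a
    positivity
  obtain ⟨N, hN⟩ := EC.tur_lower _ hδ
  refine ⟨N, fun n hn => ?_⟩
  have h := hN n hn
  set δ : ℝ := ε / (5 / 2 * |a| + b + 1) with hδd
  have hδe : δ * (5 / 2 * |a| + b + 1) = ε := by
    rw [hδd]
    have := abs_nonneg a
    field_simp
  have h3 := TH200.LP.tur_card 2 n
  have hF : CliqueFree 5 (TH200.LP.tur 2 n) := TH200.LP.tur_free 2 n (by omega)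
  obtain ⟨h1, h2⟩ := bounds (TH200.LP.tur 2 n) h3 hF
  have hn4 : (0 : ℝ) ≤ (n : ℝ) ^ 4 := by positivity
  have hY : (5 / 8 - δ) * (n : ℝ) ^ 4 <
      ∑ x : Fin n, ∑ y : Fin n, (codegree (TH200.LP.tur 2 n) x y : ℝ) ^ 2 := h
  unfold objective
  set X : ℝ := n * (6 * ((TH200.LP.tur 2 n).card : ℝ)) with hXd
  set Y : ℝ := ∑ x : Fin n, ∑ y : Fin n, (codegree (TH200.LP.tur 2 n) x y : ℝ) ^ 2 with hYd
  set M : ℝ := (n : ℝ) ^ 4 with hM
  have hXu : X ≤ (3 / 4 + 5 / 2 * δ) * M := by nlinarith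
  have hXl : (3 / 4 - 5 / 2 * δ) * M ≤ X := by nlinarith [mul_nonneg hδ.le hn4]
  have hbY : b * ((5 / 8 - δ) * M) ≤ b * Y := mul_le_mul_of_nonneg_left hY.le hb
  have haX : (3 / 4 * a - 5 / 2 * |a| * δ) * M ≤ a * X := by
    rcases le_total 0 a with ha | ha
    · rw [abs_of_nonneg ha]
      have := mul_le_mul_of_nonneg_left hXl ha
      linarith
    · rw [abs_of_nonpos ha]
      have := mul_le_mul_of_nonpos_left hXu ha
      linarith
  have hfin : (3 / 4 * a + 5 / 8 * b - ε) * M ≤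
      (3 / 4 * a - 5 / 2 * |a| * δ) * M + b * ((5 / 8 - δ) * M) := by
    rw [← hδe]
    nlinarith [mul_nonneg hδ.le hn4]
  linarith

/-- Every `K_5^3`-free 3-graph `H` on `n` vertices satisfies `6 ∑ d(x,y)^2 ≤ 5 n (6 |H|)` and
`16 n (6 |H|) + 40 ∑ d(x,y)^2 ≤ 37 n^4`.  For all real `b ≥ 0` and `a ≤ (2/5) b` the maximum of
`a n (6 |H|) + b ∑ d(x,y)^2` over these 3-graphs is at most `max(0, (3/4) a + (5/8) b) n^4`, and the
maximum divided by `n^4` converges to this constant. -/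
theorem result :
    (∀ (n : ℕ) (H : Finset (Finset (Fin n))), (∀ e ∈ H, e.card = 3) → CliqueFree 5 H →
      6 * ∑ x : Fin n, ∑ y : Fin n, (codegree H x y : ℝ) ^ 2 ≤ 5 * (n * (6 * (H.card : ℝ))) ∧
      16 * (n * (6 * (H.card : ℝ))) + 40 * ∑ x : Fin n, ∑ y : Fin n, (codegree H x y : ℝ) ^ 2 ≤
        37 * (n : ℝ) ^ 4) ∧
    ∀ a b : ℝ, 0 ≤ b → a ≤ 2 / 5 * b →
      (∀ (n : ℕ) (H : Finset (Finset (Fin n))), (∀ e ∈ H, e.card = 3) → CliqueFree 5 H →
        objective a b H ≤ max 0 (3 / 4 * a + 5 / 8 * b) * (n : ℝ) ^ 4) ∧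
      Tendsto (fun n : ℕ => exValue a b 5 n / (n : ℝ) ^ 4) atTop
        (𝓝 (max 0 (3 / 4 * a + 5 / 8 * b))) := by
  refine ⟨fun n H h3 hF => bounds H h3 hF, fun a b hb hab => ⟨upper hb hab, ?_⟩⟩
  set c : ℝ := max 0 (3 / 4 * a + 5 / 8 * b) with hc
  have hempty : ∀ n : ℕ, CliqueFree 5 (∅ : Finset (Finset (Fin n))) := by
    intro n S hS
    obtain ⟨s, hs, hs3⟩ := exists_subset_card_eq (show 3 ≤ S.card by omega)
    exact ⟨s, hs, hs3, by simp⟩
  have hzero : ∀ n : ℕ, objective a b (∅ : Finset (Finset (Fin n))) = 0 := by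
    intro n
    simp [objective, codegree]
  have hup : ∀ n : ℕ, exValue a b 5 n ≤ c * (n : ℝ) ^ 4 := by
    intro n
    refine csSup_le ⟨_, ∅, by simp, hempty n, rfl⟩ ?_
    rintro s ⟨H, h3, hF, rfl⟩
    exact upper hb hab n H h3 hF
  have hbdd : ∀ n : ℕ, BddAbove {s : ℝ | ∃ H : Finset (Finset (Fin n)),
      (∀ e ∈ H, e.card = 3) ∧ CliqueFree 5 H ∧ objective a b H = s} := by
    intro n
    refine ⟨c * (n : ℝ) ^ 4, ?_⟩
    rintro s ⟨H, h3, hF, rfl⟩
    exact upper hb hab n H h3 hF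
  rw [Metric.tendsto_atTop]
  intro ε hε
  obtain ⟨N, hN⟩ := lower a b hb (ε / 2) (by linarith)
  refine ⟨max N 1, fun n hn => ?_⟩
  have hn1 : 1 ≤ n := le_trans (le_max_right _ _) hn
  have hnN : N ≤ n := le_trans (le_max_left _ _) hn
  have hn0 : (0 : ℝ) < n := by exact_mod_cast hn1
  have hpos : (0 : ℝ) < (n : ℝ) ^ 4 := by positivity
  have h1 : exValue a b 5 n / (n : ℝ) ^ 4 ≤ c := by
    rw [div_le_iff₀ hpos]
    exact hup n
  have h2 : 3 / 4 * a + 5 / 8 * b - ε / 2 ≤ exValue a b 5 n / (n : ℝ) ^ 4 := by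
    rw [le_div_iff₀ hpos]
    refine (hN n hnN).trans ?_
    exact le_csSup (hbdd n) ⟨TH200.LP.tur 2 n, TH200.LP.tur_card 2 n,
      TH200.LP.tur_free 2 n (by omega), rfl⟩
  have h4 : 0 ≤ exValue a b 5 n / (n : ℝ) ^ 4 := by
    refine div_nonneg ?_ hpos.le
    have := le_csSup (hbdd n) ⟨∅, by simp, hempty n, rfl⟩
    rwa [hzero n] at this
  have h5 : c - ε < exValue a b 5 n / (n : ℝ) ^ 4 := by
    rcases max_cases (0 : ℝ) (3 / 4 * a + 5 / 8 * b) with ⟨h6, -⟩ | ⟨h6, -⟩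
    · rw [hc, h6]
      linarith
    · rw [hc, h6]
      linarith
  rw [Real.dist_eq, abs_lt]
  constructor <;> linarith

end Pool.Agent.Results.MP_a4d830_co.FiveCliqueEdgesCodegrees
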