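import Pool.Agent.Q306.FK.GA.Fin
import Pool.Agent.Q306.FK.GB.Fin
import Pool.Agent.Q306.FK.GC.Fin
import Pool.Agent.Q306.FK.Hom
import Pool.Agent.Q306.FK.Six

set_option autoImplicit false
set_option maxRecDepth 100000
open Finset Filter Topology

namespace Pool.Agent.Results.MP_a4d830_co.FiveCliquePlusOneGraph
open Pool.Agent.Q306.FK
open Pool.Agent.H37R3.Pen (bt)
open Pool.Agent.H37R3.Cop (ti)

theorem cov {m : ℕ} {G : Finset (Finset (Fin 6))} (hm : MaskG m G) :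
    ∀ i j : Fin 6, i ≠ j → ∃ k : Fin 6, ({i, j, k} : Finset (Fin 6)) ∈ G := by
  intro i j hij
  obtain ⟨k, hk1, hk2, hk3⟩ := hm.2 i j hij
  exact ⟨k, of_sorted
    (P := fun i j k => bt m (ti i j k) = 1 →
      ({i, j, k} : Finset (Fin 6)) ∈ G)
    (fun i j k h hb => by rw [insert_comm]; exact h (by rwa [Pool.Agent.H37R3.Cop.ti_213] at hb))
    (fun i j k h hb => by rw [pair_comm k j]; exact h (by rwa [Pool.Agent.H37R3.Cop.ti_132] at hb))
    (fun i j k h1 h2 h3 => (hm.1 i j k h1 h2).mp h3) i j k hij hk1.symm hk2.symm hk3⟩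

/-- the upper bound from an inequality with a multiple of the number of copies -/
theorem upper {m : ℕ} {F : Finset (Finset (Fin m))} (hF : ThreeGraph F)
    {G : Finset (Finset (Fin 6))} (hG : ∀ e ∈ G, e.card = 3)
    (hcov : ∀ i j : Fin 6, i ≠ j → ∃ k : Fin 6, ({i, j, k} : Finset (Fin 6)) ∈ G)
    (hFG : MapsInto F G) {K : ℕ} (hK : 0 < K)
    (h : ∀ (n : ℕ) (H : Finset (Finset (Fin n))), ThreeGraph H → K53Free H →
      8 * n ^ 3 * H.card ≤ n ^ 6 + K * copies G H) (ε : ℝ) (hε : 0 < ε) :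
    ∃ n0 : ℕ, ∀ n, n0 ≤ n → ∀ H : Finset (Finset (Fin n)),
      ThreeGraph H → K53Free H → ¬ Contains F H → (H.card : ℝ) ≤ (1 / 8 + ε) * (n : ℝ) ^ 3 := by
  have hKr : (0 : ℝ) < K := by exact_mod_cast hK
  obtain ⟨n0, hn0⟩ := few_copies hF hG hcov hFG (δ := 8 * ε / K) (by positivity)
  refine ⟨max n0 1, fun n hn H hH hH5 hFH => ?_⟩
  have hn1 : 1 ≤ n := (le_max_right _ _).trans hn
  have h1 := hn0 n ((le_max_left _ _).trans hn) H hH hFH
  have h2 : (8 * (n : ℝ) ^ 3 * H.card) ≤ (n : ℝ) ^ 6 + K * copies G H := by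
    exact_mod_cast h n H hH hH5
  have h3 : (K : ℝ) * copies G H ≤ 8 * ε * (n : ℝ) ^ 6 := by
    calc (K : ℝ) * copies G H ≤ K * (8 * ε / K * (n : ℝ) ^ 6) :=
          mul_le_mul_of_nonneg_left h1 hKr.le
      _ = 8 * ε * (n : ℝ) ^ 6 := by field_simp
  have hn3 : (0 : ℝ) < (n : ℝ) ^ 3 := by positivity
  have h4 : (n : ℝ) ^ 3 * (H.card : ℝ) ≤ (n : ℝ) ^ 3 * ((1 / 8 + ε) * (n : ℝ) ^ 3) := by
    nlinarith
  exact le_of_mul_le_mul_left h4 hn3

theorem density {m : ℕ} {F : Finset (Finset (Fin m))} (hF : ThreeGraph F)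
    (hFG : MapsInto F GA ∨ MapsInto F GB ∨ MapsInto F GC) (h2 : ¬ TwoColourable F) :
    Tendsto (fun n : ℕ => (ex F n : ℝ) / (n.choose 3 : ℝ)) atTop (𝓝 (3 / 4)) := by
  refine tendsto_of h2 ?_
  rcases hFG with h | h | h
  · exact upper hF GA.three (cov GA.mask) h (by norm_num) (fun n H a b => GA.edges a b)
  · exact upper hF GB.three (cov GB.mask) h (by norm_num) (fun n H a b => GB.edges a b)
  · exact upper hF GC.three (cov GC.mask) h (by norm_num) (fun n H a b => GC.edges a b)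

/-- stability -/
theorem stable {m : ℕ} {F : Finset (Finset (Fin m))} (hF : ThreeGraph F)
    (hFG : MapsInto F GC) (ε : ℝ) (hε : 0 < ε) :
    ∃ δ : ℝ, 0 < δ ∧ ∃ n0 : ℕ, ∀ n, n0 ≤ n → ∀ H : Finset (Finset (Fin n)),
      ThreeGraph H → K53Free H → ¬ Contains F H → (1 / 8 - δ) * (n : ℝ) ^ 3 ≤ H.card →
      ∃ A : Finset (Fin n), ((symmDiff H (twoClass A)).card : ℝ) ≤ ε * (n : ℝ) ^ 3 := by
  obtain ⟨n0, hn0⟩ := few_copies hF GC.three (cov GC.mask) hFG (δ := ε / 68000) (by positivity)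
  refine ⟨ε / 1488, by positivity, max n0 1, fun n hn H hH hH5 hFH hc => ?_⟩
  have hn1 : 1 ≤ n := (le_max_right _ _).trans hn
  have h1 := hn0 n ((le_max_left _ _).trans hn) H hH hFH
  obtain ⟨A, hA⟩ := GC.stability hH hH5
  refine ⟨A, ?_⟩
  have h2 : (n : ℝ) ^ 3 * ((symmDiff H (twoClass A)).card : ℝ) + 93 * (8 * (n : ℝ) ^ 3 * H.card) ≤
      93 * (n : ℝ) ^ 6 + 34000 * copies GC H := by exact_mod_cast hA
  have hn3 : (0 : ℝ) < (n : ℝ) ^ 3 := by positivity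
  have h5 := mul_le_mul_of_nonneg_left hc hn3.le
  have h4 : (n : ℝ) ^ 3 * ((symmDiff H (twoClass A)).card : ℝ) ≤
      (n : ℝ) ^ 3 * (ε * (n : ℝ) ^ 3) := by
    nlinarith
  exact le_of_mul_le_mul_left h4 hn3

/-- **Main theorem.** 3-graphs without a complete 3-graph on five vertices and one more
forbidden 3-graph. -/
theorem result :
    (∀ (n : ℕ) (H : Finset (Finset (Fin n))), ThreeGraph H → K53Free H →
      8 * n ^ 3 * H.card ≤ n ^ 6 + 120 * copies GA H ∧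
      8 * n ^ 3 * H.card ≤ n ^ 6 + 132 * copies GB H ∧
      8 * n ^ 3 * H.card ≤ n ^ 6 + 366 * copies GC H) ∧
    (∀ (m : ℕ) (F : Finset (Finset (Fin m))), ThreeGraph F →
      (MapsInto F GA ∨ MapsInto F GB ∨ MapsInto F GC) → ¬ TwoColourable F →
      Tendsto (fun n : ℕ => (ex F n : ℝ) / (n.choose 3 : ℝ)) atTop (𝓝 (3 / 4))) ∧
    (∀ F : Finset (Finset (Fin 6)), ThreeGraph F → K53Free F → F.card ≤ 12 → ¬ TwoColourable F →
      Tendsto (fun n : ℕ => (ex F n : ℝ) / (n.choose 3 : ℝ)) atTop (𝓝 (3 / 4))) ∧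
    (∀ (n : ℕ) (H : Finset (Finset (Fin n))), ThreeGraph H → K53Free H →
      ∃ A : Finset (Fin n), n ^ 3 * (symmDiff H (twoClass A)).card + 93 * (8 * n ^ 3 * H.card) ≤
        93 * n ^ 6 + 34000 * copies GC H) ∧
    (∀ (m : ℕ) (F : Finset (Finset (Fin m))), ThreeGraph F → MapsInto F GC →
      ∀ ε : ℝ, 0 < ε → ∃ δ : ℝ, 0 < δ ∧ ∃ n0 : ℕ, ∀ n, n0 ≤ n →
        ∀ H : Finset (Finset (Fin n)), ThreeGraph H → K53Free H → ¬ Contains F H →
        (1 / 8 - δ) * (n : ℝ) ^ 3 ≤ H.card →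
        ∃ A : Finset (Fin n), ((symmDiff H (twoClass A)).card : ℝ) ≤ ε * (n : ℝ) ^ 3) :=
  ⟨fun _ _ hH hF => ⟨GA.edges hH hF, GB.edges hH hF, GC.edges hH hF⟩,
   fun _ _ hF hFG h2 => density hF hFG h2,
   fun _ hF hK h12 h2 => density hF (Six.six hF hK h12 h2) h2,
   fun _ _ hH hF => GC.stability hH hF,
   fun _ _ hF hFG ε hε => stable hF hFG ε hε⟩

end Pool.Agent.Results.MP_a4d830_co.FiveCliquePlusOneGraph
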